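import Pool.Agent.H614.MM.Kod
import Pool.Agent.R882.TLog
import Pool.Agent.R882.COver

/-!
Minimal models of images of small degree: the main statements.
-/

set_option autoImplicit false
set_option linter.unusedSectionVars false
set_option linter.overlappingInstances false

open FF Module Pool.Agent.W602.GT
open Pool.Agent.W619.PQ (IsUniruled)

namespace Pool.Agent.H614.MM

section

variable {K : Type} [Field K] [Algebra ℂ K] {n N : ℕ}

/-- `ω` is a section of `K_V - m H`, where `H` is the pull-back of the hyperplane class under the map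
given by `x`: the products of `ω` with the monomials of degree `m` in `x` are canonical forms which
are regular at all prime divisors. -/
def IsSection (m : ℕ) (x : Fin N → K) (ω : (Fin n → Derivation ℂ K K) → K) : Prop :=
  IsPluri 1 ω ∧ ∀ (f : Fin m → Fin N) (P : Place ℂ K), Divisorial n P →
    RegAt P (fun D => (∏ k, x (f k)) * ω D)

/-- the trace of the form `ω` to the variety with the function field `F` is not zero -/
def TrNe (ω : (Fin n → Derivation ℂ K K) → K) (F : IntermediateField ℂ K) : Prop :=
  ∃ (D : Fin n → Derivation ℂ F F) (D' : Fin n → Derivation ℂ K K),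
    (∀ i f, D' i (algebraMap F K f) = algebraMap F K (D i f)) ∧
    Algebra.trace F K (ω D') ≠ 0

/-- `Y` is covered by lines -/
def CovLines (x : Fin N → K) : Prop :=
  ∃ (M : Type) (_ : Field M) (_ : Algebra ℂ M) (a b : Fin N → M),
    Algebra.EssFiniteType ℂ M ∧ LinearIndependent M ![a, b] ∧
    ∀ F : MvPolynomial (Fin N) ℂ, MvPolynomial.aeval x F = 0 ↔
      MvPolynomial.aeval (fun j => Polynomial.C (a j) + Polynomial.X * Polynomial.C (b j)) F = 0

end

theorem kodGe_mono {L : Type} [Field L] [Algebra ℂ L] {n e d : ℕ} {B : Place ℂ L → Prop}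
    (h : e ≤ d) (H : KodGe ℂ L n B d) : KodGe ℂ L n B e := by
  obtain ⟨p, hp, ω, hω, D, hD, hind⟩ := H
  refine ⟨p, hp, fun i => ω (Fin.castLE (Nat.succ_le_succ h) i), fun l => hω _, D, hD, ?_⟩
  exact hind.comp (Fin.castLE h) (Fin.castLE_injective h)

section

variable {K : Type} [Field K] [Algebra ℂ K] {n N m d : ℕ} {L : Type} [Field L] [Algebra ℂ L]
  [Algebra L K] [IsScalarTower ℂ L K] [FiniteDimensional L K]

/-- the traces in a frame -/
theorem frame_ne {x : Fin N → K} {ω : (Fin n → Derivation ℂ K K) → K} (hω : IsPluri 1 ω)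
    {z : Fin n → L} {E : Fin n → Derivation ℂ L L} (hz : IsTranscendenceBasis ℂ z)
    (hE : ∀ i j, E i (z j) = if i = j then 1 else 0) {E' : Fin n → Derivation ℂ K K}
    (hE' : ∀ i f, E' i (algebraMap L K f) = algebraMap L K (E i f))
    (htr : TrNe ω ((IntermediateField.adjoin L (Set.range x)).restrictScalars ℂ)) :
    Algebra.trace (IntermediateField.adjoin L (Set.range x)) K (ω E') ≠ 0 := by
  classical
  have hzK : IsTranscendenceBasis ℂ (fun j => algebraMap L K (z j)) := hz.algebraMap_comp
  have hE'd := Pool.Agent.Y172.lift_dual hE hE'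
  obtain ⟨F, hF⟩ : ∃ F : IntermediateField ℂ K,
    F = (IntermediateField.adjoin L (Set.range x)).restrictScalars ℂ := ⟨_, rfl⟩
  rw [← hF] at htr
  obtain ⟨D, D', hD, htr⟩ := htr
  have hLF : ∀ f : L, algebraMap L K f ∈ F := by
    intro f
    rw [hF]
    exact (IntermediateField.adjoin L (Set.range x)).algebraMap_mem f
  intro h0
  apply htr
  have h1 : Algebra.trace F K (ω E') = 0 := by
    subst hF
    have h2 : ((Algebra.trace (IntermediateField.adjoin L (Set.range x)) K (ω E') :
        IntermediateField.adjoin L (Set.range x)) : K) = 0 := by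
      rw [h0]
      rfl
    apply Subtype.ext
    exact h2
  obtain ⟨δ, hδ⟩ : ∃ δ : F, δ = (Matrix.of fun i j => D i ⟨algebraMap L K (z j), hLF _⟩ :
    Matrix (Fin n) (Fin n) F).det := ⟨_, rfl⟩
  have h2 : ω D' = δ • ω E' := by
    rw [Pool.Agent.Y172.pluri_coord hzK hE'd hω D', pow_one, Algebra.smul_def, hδ,
      RingHom.map_det]
    congr 1
    congr 1
    ext i j
    rw [RingHom.mapMatrix_apply, Matrix.map_apply, Matrix.of_apply, Matrix.of_apply]
    exact hD i ⟨algebraMap L K (z j), hLF _⟩
  rw [h2, map_smul, h1, smul_zero]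

/-- **Kodaira dimension of images.** -/
theorem main1 [Algebra.EssFiniteType ℂ K] (hK : Algebra.trdeg ℂ K = n) {x : Fin N → K}
    (hone : ∃ j, x j = 1)
    (hd : Algebra.trdeg ℂ (IntermediateField.adjoin ℂ (Set.range x)) = d)
    {ω : (Fin n → Derivation ℂ K K) → K} (hω : IsSection m x ω)
    (htr : TrNe ω ((IntermediateField.adjoin L (Set.range x)).restrictScalars ℂ))
    (hdeg : Module.finrank L (IntermediateField.adjoin L (Set.range x)) ≤ m) :
    KodGe ℂ L n (fun _ => False) (d - 1) ∧
    (¬ CovLines x ∨ 2 * Module.finrank L (IntermediateField.adjoin L (Set.range x)) ≤ m + 1 →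
      KodGe ℂ L n (fun _ => False) d) := by
  classical
  have hessL : Algebra.EssFiniteType ℂ L := Pool.Agent.TH466.QG.ess_below (K := K)
  have hL : Algebra.trdeg ℂ L = n := Pool.Agent.Y184.NT.trdeg_below (K := K) hK
  obtain ⟨j0, hj0⟩ := hone
  obtain ⟨z, E, hz, hE⟩ := Pool.Agent.Y172.exists_crd (k := ℂ) (K := L) hL
  choose E' hE' using fun i => Pool.Agent.Y172.exists_lift (k := ℂ) (K := L) (L := K) hL (E i)
  have hne := frame_ne hω.1 hz hE hE' htr
  have hreg : ∀ (f : Fin m → Fin N) (P : Place ℂ K), Divisorial n P →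
      Pool.Agent.R882.LT.SecAt (fun _ => False) P (fun D => (∏ k, x (f k)) * ω D) := by
    intro f P hP
    refine ⟨fun D hD => ?_, fun _ => hω.2 f P hP⟩
    exact hω.2 f P hP D fun i => Pool.Agent.TH466.QG.derReg_of_log (hD i)
  rcases kod_or (BK := fun _ => False) (BL := fun _ => False) hL (fun _ _ _ _ h => h) hj0 hω.1
    hreg hd hz hE hE' hdeg hne with h | ⟨h, hm2, a, b, hLI, hline⟩
  · have h1 := Pool.Agent.R882.LT.kodGe_log h
    exact ⟨kodGe_mono (Nat.sub_le _ _) h1, fun _ => h1⟩
  · refine ⟨Pool.Agent.R882.LT.kodGe_log h, fun hcon => ?_⟩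
    rcases hcon with hcon | hcon
    · exact absurd ⟨L, inferInstance, inferInstance, a, b, hessL, hLI, hline⟩ hcon
    · omega

/-- sections on the variety itself -/
theorem trNe_top [Algebra.EssFiniteType ℂ K] (hK : Algebra.trdeg ℂ K = n)
    {ω : (Fin n → Derivation ℂ K K) → K} (hω : IsPluri 1 ω) (hne : ∃ D, ω D ≠ 0)
    {F : IntermediateField ℂ K} (hF : F = ⊤) : TrNe ω F := by
  have h := Pool.Agent.R882.LT.traceNe_top (ω := ω) hK (fun Z hZ D0 hD0 h0 => by
    obtain ⟨D, hD⟩ := hne
    apply hD
    rw [Pool.Agent.Y172.pluri_coord hZ hD0 hω D, h0, mul_zero]) hF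
  exact h

/-- For all fields `F` with `ℂ(x) < F ≤ K` there is a section of `K_V - m H` with nonzero trace to
`F`, for some `m` with `s ≤ [K : F] m`. -/
def Pos (n : ℕ) (x : Fin N → K) (s : ℕ) : Prop :=
  ∀ F : IntermediateField ℂ K, IntermediateField.adjoin ℂ (Set.range x) < F →
    ∃ m : ℕ, s ≤ Module.finrank F K * m ∧
      ∃ ω : (Fin n → Derivation ℂ K K) → K, IsSection m x ω ∧ TrNe ω F

open Pool.Agent.R882.Over (IsBase FactorsThrough)

/-- **Images over an arbitrary variety.** -/
theorem main2 {x : Fin N → K} (hx : IsBase n x) (hp : Pos n x (Module.finrank L K))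
    (hnf : ¬ FactorsThrough L x) :
    KodGe ℂ L n (fun _ => False) (n - 1) ∧
    (¬ CovLines x → KodGe ℂ L n (fun _ => False) n) := by
  classical
  have hessK : Algebra.EssFiniteType ℂ K := hx.ess
  have hfin := hx.fin
  have hmul : Module.finrank L (IntermediateField.adjoin L (Set.range x)) *
      Module.finrank (IntermediateField.adjoin L (Set.range x)) K = Module.finrank L K :=
    Module.finrank_mul_finrank L _ K
  obtain ⟨F, hF⟩ : ∃ F : IntermediateField ℂ K,
    F = (IntermediateField.adjoin L (Set.range x)).restrictScalars ℂ := ⟨_, rfl⟩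
  have hle : IntermediateField.adjoin ℂ (Set.range x) ≤ F := by
    rw [hF, IntermediateField.adjoin_le_iff]
    exact IntermediateField.subset_adjoin L _
  have hLF : ∀ f : L, algebraMap L K f ∈ F := by
    intro f
    rw [hF]
    exact (IntermediateField.adjoin L (Set.range x)).algebraMap_mem f
  have hne : IntermediateField.adjoin ℂ (Set.range x) ≠ F := by
    intro h
    apply hnf
    intro f
    rw [h]
    exact hLF f
  obtain ⟨m, hm, ω, hω, htr⟩ := hp F (lt_of_le_of_ne hle hne)
  have hfr : Module.finrank F K =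
      Module.finrank (IntermediateField.adjoin L (Set.range x)) K := by
    rw [hF]
    rfl
  have hdeg : Module.finrank L (IntermediateField.adjoin L (Set.range x)) ≤ m := by
    rw [hfr, ← hmul] at hm
    have h1 : 0 < Module.finrank (IntermediateField.adjoin L (Set.range x)) K :=
      Module.finrank_pos
    rw [mul_comm] at hm
    exact Nat.le_of_mul_le_mul_left hm h1
  have hd : Algebra.trdeg ℂ (IntermediateField.adjoin ℂ (Set.range x)) = n := by
    have h2 := trdeg_add_eq ℂ (IntermediateField.adjoin ℂ (Set.range x)) (A := K)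
    rw [trdeg_eq_zero (R := IntermediateField.adjoin ℂ (Set.range x)) (A := K), add_zero,
      hx.dim] at h2
    exact h2
  rw [hF] at htr
  have h3 := main1 (L := L) hx.dim hx.one hd hω htr hdeg
  exact ⟨h3.1, fun h => h3.2 (Or.inl h)⟩

/-- **Images over a uniruled variety.** -/
theorem main3 {x : Fin N → K} (hx : IsBase n x)
    (hY : IsUniruled ℂ (IntermediateField.adjoin ℂ (Set.range x)) n)
    (hp : Pos n x (Module.finrank L K)) :
    [¬ KodGe ℂ L n (fun _ => False) (n - 1), ¬ KodGe ℂ L n (fun _ => False) 0,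
      ¬ Psef ℂ L n (fun _ => False), IsUniruled ℂ L n, FactorsThrough L x].TFAE := by
  classical
  have hessK : Algebra.EssFiniteType ℂ K := hx.ess
  have hessL : Algebra.EssFiniteType ℂ L := Pool.Agent.TH466.QG.ess_below (K := K)
  have hL : Algebra.trdeg ℂ L = n := Pool.Agent.Y184.NT.trdeg_below (K := K) hx.dim
  tfae_have 1 → 5 := by
    intro h
    by_contra hnf
    exact h (main2 hx hp hnf).1
  tfae_have 5 → 4 := by
    intro hf
    obtain ⟨M, i1, i2, hM, htr, ⟨ψ⟩⟩ := hY
    let φ : L →ₐ[ℂ] IntermediateField.adjoin ℂ (Set.range x) :=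
      { toFun := fun f => ⟨algebraMap L K f, hf f⟩
        map_one' := Subtype.ext (map_one _)
        map_mul' := fun f g => Subtype.ext (map_mul _ _ _)
        map_zero' := Subtype.ext (map_zero _)
        map_add' := fun f g => Subtype.ext (map_add _ _ _)
        commutes' := fun c => Subtype.ext (IsScalarTower.algebraMap_apply ℂ L K c).symm }
    exact ⟨M, i1, i2, hM, htr, ⟨ψ.comp φ⟩⟩
  tfae_have 4 → 3 := fun h h' =>
    (Pool.Agent.W619.Y.uniruled_neg n hL h).1 ((Pool.Agent.TH466.QG.psef_iff n).1 h')
  tfae_have 3 → 2 := fun h h' => h (psef_of_kodGe h')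
  tfae_have 2 → 1 := fun h h' => h (kodGe_mono (Nat.zero_le _) h')
  tfae_finish

/-- the case of prime degree -/
theorem pos_prime {x : Fin N → K} (hx : IsBase n x)
    (hprime : (Module.finrank (IntermediateField.adjoin ℂ (Set.range x)) K).Prime)
    {ω : (Fin n → Derivation ℂ K K) → K} (hω : IsSection m x ω) (hne : ∃ D, ω D ≠ 0) {s : ℕ}
    (hs : s ≤ m) : Pos n x s := by
  classical
  have hessK : Algebra.EssFiniteType ℂ K := hx.ess
  intro F hF
  have hsimple := IntermediateField.isSimpleOrder_of_finrank_prime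
    (IntermediateField.adjoin ℂ (Set.range x)) K hprime
  have htop : F = ⊤ := by
    rcases hsimple.eq_bot_or_eq_top (IntermediateField.extendScalars hF.le) with h1 | h1
    · exfalso
      apply not_le_of_gt hF
      intro y hy
      have h2 : y ∈ IntermediateField.extendScalars hF.le := by
        rw [IntermediateField.mem_extendScalars]
        exact hy
      rw [h1, IntermediateField.mem_bot] at h2
      obtain ⟨w, hw⟩ := h2
      rw [← hw]
      exact w.2
    · rw [eq_top_iff]
      intro y _
      have h2 : y ∈ IntermediateField.extendScalars hF.le := by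
        rw [h1]
        trivial
      rw [IntermediateField.mem_extendScalars] at h2
      exact h2
  refine ⟨m, ?_, ω, hω, trNe_top hx.dim hω.1 hne htop⟩
  have hfin : Module.Finite F K := by
    subst htop
    exact Module.Finite.of_surjective (Algebra.linearMap (⊤ : IntermediateField ℂ K) K)
      fun z => ⟨⟨z, trivial⟩, rfl⟩
  have h1 : 0 < Module.finrank F K := Module.finrank_pos
  nlinarith

end

end Pool.Agent.H614.MM
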