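import Mathlib

/-!
Transcendence degrees of fields generated by algebraic elements.
-/

set_option autoImplicit false

namespace Pool.Agent.H614.MM

variable {k K : Type} [Field k] [Field K] [Algebra k K]

open scoped IntermediateField.algebraAdjoinAdjoin in
theorem trdeg_adjoin_le {e : ℕ} (u : Fin e → K) :
    Algebra.trdeg k (IntermediateField.adjoin k (Set.range u)) ≤ e := by
  classical
  let G : Set K := Set.range u
  let E : IntermediateField k K := IntermediateField.adjoin k G
  let s : Set E := {z | (z : K) ∈ G}
  have htop : IntermediateField.adjoin k s = ⊤ := by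
    have h1 : (IntermediateField.adjoin k s).map E.val = (⊤ : IntermediateField k E).map E.val := by
      rw [IntermediateField.adjoin_map, ← AlgHom.fieldRange_eq_map,
        IntermediateField.fieldRange_val]
      change IntermediateField.adjoin k _ = IntermediateField.adjoin k G
      congr 1
      ext z
      constructor
      · rintro ⟨y, hy, rfl⟩
        exact hy
      · intro hz
        exact ⟨⟨z, IntermediateField.subset_adjoin _ _ hz⟩, hz, rfl⟩
    exact IntermediateField.map_injective _ h1
  have halg0 : Algebra.IsAlgebraic (IntermediateField.adjoin k s) E := by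
    constructor
    intro z
    have hz : z ∈ IntermediateField.adjoin k s := by
      rw [htop]
      trivial
    exact isAlgebraic_algebraMap (R := IntermediateField.adjoin k s) (A := E) ⟨z, hz⟩
  have halg : Algebra.IsAlgebraic (Algebra.adjoin k s) E :=
    (IsFractionRing.comap_isAlgebraic_iff (A := Algebra.adjoin k s)
      (K := IntermediateField.adjoin k s) (C := E)).2 halg0
  have h1 : Algebra.trdeg k E ≤ Cardinal.mk s := Algebra.IsAlgebraic.trdeg_le_cardinalMk k s
  have h2 : Cardinal.mk s ≤ Cardinal.mk (Fin e) := by
    have h3 : ∀ z : s, ∃ i, u i = ((z : E) : K) := fun z => z.2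
    choose f hf using h3
    refine Cardinal.mk_le_of_injective (f := f) ?_
    intro z w hzw
    apply Subtype.ext
    apply Subtype.ext
    rw [← hf z, ← hf w, hzw]
  rw [Cardinal.mk_fin] at h2
  exact h1.trans h2

theorem trdeg_alg_le (A0 : IntermediateField k K) (G : Set K)
    (h : ∀ z ∈ G, IsAlgebraic A0 z) :
    Algebra.trdeg k (IntermediateField.adjoin k G) ≤ Algebra.trdeg k A0 := by
  have h1 : Algebra.IsAlgebraic A0 (IntermediateField.adjoin A0 G) :=
    IntermediateField.isAlgebraic_adjoin fun z hz => (h z hz).isIntegral
  have hf : FaithfulSMul A0 (IntermediateField.adjoin A0 G) :=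
    (faithfulSMul_iff_algebraMap_injective _ _).2
      (algebraMap A0 (IntermediateField.adjoin A0 G)).injective
  have h2 : Algebra.trdeg k A0 + Algebra.trdeg A0 (IntermediateField.adjoin A0 G) =
      Algebra.trdeg k (IntermediateField.adjoin A0 G) := trdeg_add_eq k A0
  rw [trdeg_eq_zero (R := A0) (A := IntermediateField.adjoin A0 G), add_zero] at h2
  rw [h2]
  have hle : IntermediateField.adjoin k G ≤
      (IntermediateField.adjoin A0 G).restrictScalars k := by
    rw [IntermediateField.adjoin_le_iff]
    exact IntermediateField.subset_adjoin A0 G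
  exact trdeg_le_of_injective (IntermediateField.inclusion hle)
    (IntermediateField.inclusion_injective hle)

/-- a field generated by points on lines has at most one more parameter -/
theorem trdeg_lines {N d e : ℕ} {G : Set K} {x : Fin N → K} {τ : K}
    (hx : ∀ j, x j ∈ IntermediateField.adjoin k (insert τ G))
    (hd : Algebra.trdeg k (IntermediateField.adjoin k (Set.range x)) = d)
    (t : Fin e → K) (ht : ∀ z ∈ G, IsAlgebraic (IntermediateField.adjoin k (Set.range t)) z) :
    d ≤ e + 1 := by
  classical
  obtain ⟨A0, hA0⟩ : ∃ A0 : IntermediateField k K,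
    A0 = IntermediateField.adjoin k (Set.range (Fin.cons τ t : Fin (e + 1) → K)) := ⟨_, rfl⟩
  have hA : Algebra.trdeg k A0 ≤ (e + 1 : ℕ) := by
    rw [hA0]
    exact trdeg_adjoin_le _
  have hτ : τ ∈ A0 := by
    rw [hA0]
    exact IntermediateField.subset_adjoin _ _ ⟨0, rfl⟩
  have htA : IntermediateField.adjoin k (Set.range t) ≤ A0 := by
    rw [IntermediateField.adjoin_le_iff]
    rintro _ ⟨i, rfl⟩
    rw [hA0]
    exact IntermediateField.subset_adjoin _ _ ⟨i.succ, by rw [Fin.cons_succ]⟩
  have halg : ∀ z ∈ insert τ G, IsAlgebraic A0 z := by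
    intro z hz
    rcases hz with rfl | hz
    · exact isAlgebraic_algebraMap (R := A0) (A := K) ⟨z, hτ⟩
    · obtain ⟨p, hp0, hp⟩ := ht z hz
      refine ⟨p.map (IntermediateField.inclusion htA).toRingHom, ?_, ?_⟩
      · exact (Polynomial.map_ne_zero_iff (IntermediateField.inclusion htA).toRingHom.injective).2 hp0
      · rw [Polynomial.aeval_def, Polynomial.eval₂_map]
        exact hp
  have h1 := trdeg_alg_le A0 (insert τ G) halg
  have h2 : Algebra.trdeg k (IntermediateField.adjoin k (Set.range x)) ≤
      Algebra.trdeg k (IntermediateField.adjoin k (insert τ G)) := by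
    have hle : IntermediateField.adjoin k (Set.range x) ≤
        IntermediateField.adjoin k (insert τ G) := by
      rw [IntermediateField.adjoin_le_iff]
      rintro _ ⟨j, rfl⟩
      exact hx j
    exact trdeg_le_of_injective (IntermediateField.inclusion hle)
      (IntermediateField.inclusion_injective hle)
  have h3 := (h2.trans h1).trans hA
  rw [hd] at h3
  exact_mod_cast h3

end Pool.Agent.H614.MM
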