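import Pool.Agent.H614.MM.Core
import Pool.Agent.H614.MM.Trd
import Pool.Agent.R882.TRat

/-!
Kodaira dimension of images, for maps of degree at most `m`.
-/

set_option autoImplicit false
set_option linter.unusedSectionVars false
set_option linter.overlappingInstances false

open FF Module Pool.Agent.W602.GT Pool.Agent.W603.LV Pool.Agent.W619.PQ Pool.Agent.Y172
open Pool.Agent.Y184.NT Pool.Agent.R882.LT

namespace Pool.Agent.H614.MM

section

variable {L K : Type} [Field L] [Field K] [Algebra ℂ L] [Algebra ℂ K] [Algebra L K]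
  [IsScalarTower ℂ L K] [FiniteDimensional L K] [Algebra.EssFiniteType ℂ L]
  [Algebra.EssFiniteType ℂ K] {n N m d : ℕ}

theorem kodTr_mono {BL : Place ℂ L → Prop} {e : ℕ} (h : e ≤ d)
    (H : Pool.Agent.W619.Y.KodTrB ℂ L n BL d) : Pool.Agent.W619.Y.KodTrB ℂ L n BL e := by
  obtain ⟨p, hp, ω, hω, D, hD, hind⟩ := H
  refine ⟨p, hp, fun i => ω (Fin.castLE (Nat.succ_le_succ h) i), fun l => hω _, D,
    fun l => hD _, ?_⟩
  exact hind.comp (Fin.castLE h) (Fin.castLE_injective h)

theorem isAlgebraic_image {F : Type} [Field F] [Algebra ℂ F] (φ : L →ₐ[ℂ] F) {e : ℕ}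
    (t : Fin e → L) {z : L} (h : IsAlgebraic (IntermediateField.adjoin ℂ (Set.range t)) z) :
    IsAlgebraic (IntermediateField.adjoin ℂ (Set.range fun i => φ (t i))) (φ z) := by
  obtain ⟨p, hp0, hp⟩ := h
  have hmap : (IntermediateField.adjoin ℂ (Set.range t)).map φ =
      IntermediateField.adjoin ℂ (Set.range fun i => φ (t i)) := by
    rw [IntermediateField.adjoin_map]
    congr 1
    ext w
    constructor
    · rintro ⟨_, ⟨i, rfl⟩, rfl⟩
      exact ⟨i, rfl⟩
    · rintro ⟨i, rfl⟩
      exact ⟨t i, ⟨i, rfl⟩, rfl⟩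
  have hmem : ∀ c : IntermediateField.adjoin ℂ (Set.range t),
      φ (c : L) ∈ IntermediateField.adjoin ℂ (Set.range fun i => φ (t i)) := by
    intro c
    rw [← hmap]
    exact ⟨c, c.2, rfl⟩
  let ψ : IntermediateField.adjoin ℂ (Set.range t) →+*
      IntermediateField.adjoin ℂ (Set.range fun i => φ (t i)) :=
    { toFun := fun c => ⟨φ (c : L), hmem c⟩
      map_one' := Subtype.ext (map_one φ)
      map_mul' := fun a b => Subtype.ext (map_mul φ _ _)
      map_zero' := Subtype.ext (map_zero φ)
      map_add' := fun a b => Subtype.ext (map_add φ _ _) }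
  refine ⟨p.map ψ, (Polynomial.map_ne_zero_iff ψ.injective).2 hp0, ?_⟩
  rw [Polynomial.aeval_def, Polynomial.eval₂_map]
  have h1 : (algebraMap (IntermediateField.adjoin ℂ (Set.range fun i => φ (t i))) F).comp ψ =
      (φ : L →+* F).comp (algebraMap (IntermediateField.adjoin ℂ (Set.range t)) L) := by
    ext c
    rfl
  rw [h1]
  have h2 := Polynomial.hom_eval₂ p (algebraMap (IntermediateField.adjoin ℂ (Set.range t)) L)
    (φ : L →+* F) z
  change Polynomial.eval₂ _ ((φ : L →+* F) z) p = 0
  rw [← h2]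
  have h3 : Polynomial.eval₂ (algebraMap (IntermediateField.adjoin ℂ (Set.range t)) L) z p = 0 := by
    rw [← Polynomial.aeval_def]
    exact hp
  rw [h3, map_zero]

/-- **Kodaira dimension from traces, maps of degree at most `m`.** -/
theorem kod_or (hL : Algebra.trdeg ℂ L = n) {BK : Place ℂ K → Prop}
    {BL : Place ℂ L → Prop}
    (hB : ∀ (P : Place ℂ L) (Q : Place ℂ K) (e : ℕ), Over Q P e → BK Q → BL P)
    {x : Fin N → K} {j0 : Fin N} (hj0 : x j0 = 1) {ω : (Fin n → Derivation ℂ K K) → K}
    (hω : IsPluri 1 ω)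
    (hreg : ∀ (f : Fin m → Fin N) (P : Place ℂ K), Divisorial n P →
      SecAt BK P (fun D => (∏ k, x (f k)) * ω D))
    (hd : Algebra.trdeg ℂ (IntermediateField.adjoin ℂ (Set.range x)) = d)
    {y : Fin n → L} {E : Fin n → Derivation ℂ L L} (hy : IsTranscendenceBasis ℂ y)
    (hE : ∀ i j, E i (y j) = if i = j then 1 else 0) {E' : Fin n → Derivation ℂ K K}
    (hE' : ∀ i f, E' i (algebraMap L K f) = algebraMap L K (E i f))
    (hdeg : Module.finrank L (IntermediateField.adjoin L (Set.range x)) ≤ m)
    (hne : Algebra.trace (IntermediateField.adjoin L (Set.range x)) K (ω E') ≠ 0) :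
    Pool.Agent.W619.Y.KodTrB ℂ L n BL d ∨
    (Pool.Agent.W619.Y.KodTrB ℂ L n BL (d - 1) ∧
      m + 2 ≤ 2 * Module.finrank L (IntermediateField.adjoin L (Set.range x)) ∧
      ∃ a b : Fin N → L, LinearIndependent L ![a, b] ∧
      ∀ F : MvPolynomial (Fin N) ℂ, MvPolynomial.aeval x F = 0 ↔ restr F a b = 0) := by
  classical
  have hcL : CharZero L := charZero_of_injective_algebraMap (algebraMap ℂ L).injective
  obtain ⟨x', hx'⟩ : ∃ x' : Fin N → IntermediateField.adjoin L (Set.range x),
    ∀ j, (x' j : K) = x j :=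
    ⟨fun j => ⟨x j, IntermediateField.subset_adjoin L _ ⟨j, rfl⟩⟩, fun _ => rfl⟩
  obtain ⟨W, hWdef⟩ : ∃ W : (Fin m → Fin N) → (Fin n → Derivation ℂ K K) → K,
    W = fun f D => (∏ k, x (f k)) * ω D := ⟨_, rfl⟩
  have hWp : ∀ f, IsPluri 1 (W f) := by
    intro f A D
    rw [hWdef]
    change (∏ k, x (f k)) * ω (fun i => ∑ j, A i j • D j) = _
    rw [hω A D]
    ring
  have hWr : ∀ f (P : Place ℂ K), Divisorial n P → SecAt BK P (W f) := by
    intro f P hP
    rw [hWdef]
    exact hreg f P hP
  obtain ⟨T, hTdef⟩ : ∃ T : (Fin m → Fin N) → L, ∀ f, T f = Algebra.trace L K (W f E') :=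
    ⟨_, fun _ => rfl⟩
  have hT : ∀ f, T f = Algebra.trace L (IntermediateField.adjoin L (Set.range x))
      ((∏ k, x' (f k)) *
        Algebra.trace (IntermediateField.adjoin L (Set.range x)) K (ω E')) := by
    intro f
    have h2 : W f E' = (∏ k, x' (f k)) • ω E' := by
      rw [hWdef, Algebra.smul_def]
      change (∏ k, x (f k)) * ω E' = _
      congr 1
      rw [map_prod]
      exact Finset.prod_congr rfl fun k _ => (hx' _).symm
    rw [hTdef, h2, ← Algebra.trace_trace (S := IntermediateField.adjoin L (Set.range x)),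
      map_smul, smul_eq_mul]
  have hθE : ∀ t, trForm y t E = t := by
    intro t
    have h1 : (Matrix.of fun i j => E i (y j) : Matrix (Fin n) (Fin n) L) = 1 := by
      ext i j
      rw [Matrix.of_apply, hE, Matrix.one_apply]
    rw [trForm, h1, Matrix.det_one, one_mul]
  have hθr : ∀ f (P : Place ℂ L), Divisorial n P → SecAt BL P (trForm y (T f)) := by
    intro f P hP
    rw [hTdef]
    exact trForm_sec hL hy hE hE' (W f) (hWp f) hB (hWr f) P hP
  have htw : IsScalarTower ℂ (IntermediateField.adjoin L (Set.range x)) K :=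
    IsScalarTower.of_algebraMap_eq fun r => rfl
  obtain ⟨φ, hφ⟩ : ∃ φ : IntermediateField.adjoin L (Set.range x) →ₐ[ℂ] K, ∀ z, φ z = (z : K) :=
    ⟨IsScalarTower.toAlgHom ℂ (IntermediateField.adjoin L (Set.range x)) K, fun _ => rfl⟩
  have hd' : Algebra.trdeg ℂ (IntermediateField.adjoin ℂ (Set.range x')) = d := by
    rw [← hd]
    have h1 : (IntermediateField.adjoin ℂ (Set.range x')).map φ =
        IntermediateField.adjoin ℂ (Set.range x) := by
      rw [IntermediateField.adjoin_map]
      congr 1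
      ext z
      constructor
      · rintro ⟨_, ⟨j, rfl⟩, rfl⟩
        exact ⟨j, ((hφ _).trans (hx' j)).symm⟩
      · rintro ⟨j, rfl⟩
        exact ⟨x' j, ⟨j, rfl⟩, (hφ _).trans (hx' j)⟩
    have h2 := (IntermediateField.equivMap (IntermediateField.adjoin ℂ (Set.range x')) φ)
    rw [h1] at h2
    exact h2.trdeg_eq
  have hj0' : x' j0 = 1 := by
    apply Subtype.ext
    rw [hx', hj0]
    rfl
  have hgen := Pool.Agent.R882.WR.gen_self x' hx'
  have hT0 : ∃ f, T f ≠ 0 := by
    by_contra hcon
    push Not at hcon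
    have h1 := (Pool.Agent.Y614.NT.stLine Pool.Agent.Y153.NT.stCB L
      (IntermediateField.adjoin L (Set.range x)) N m x' j0 hj0' hgen _ hne
      (fun f => by rw [← hT, hcon]) (by omega)).1
    have h2 : 0 < Module.finrank L (IntermediateField.adjoin L (Set.range x)) :=
      Module.finrank_pos
    omega
  -- from algebraically independent ratios to sections
  have hfin : ∀ (e : ℕ) (s : Fin (e + 1) → (Fin m → Fin N)), T (s 0) ≠ 0 →
      AlgebraicIndependent ℂ (fun i : Fin e => T (s i.succ) / T (s 0)) →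
      Pool.Agent.W619.Y.KodTrB ℂ L n BL e := by
    intro e s hs0 hs
    refine ⟨1, le_rfl, fun j => trForm y (T (s j)), fun l =>
      isSec_of (trForm_pluri y _) fun P hP => hθr _ P hP, E, ?_, ?_⟩
    · intro l
      change trForm y (T (s l)) E ≠ 0
      rw [hθE]
      refine Fin.cases hs0 (fun i => ?_) l
      intro h0
      have h3 := hs.ne_zero i
      rw [h0, zero_div] at h3
      exact h3 rfl
    · simp only [hθE]
      exact hs
  rcases dichotomy (L := L) (K := IntermediateField.adjoin L (Set.range x))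
      Pool.Agent.Y141.NT.stCB2 (x := x') (j0 := j0) hj0' hgen hdeg hne hT with hsep |
    ⟨hm2, a, b, j1, hLI, hab, hline, hDab⟩
  · left
    obtain ⟨s, hs0, hs⟩ := exists_ratios_d (d := d) hL hd' T hT0 fun D h1 D' h2 j =>
      hsep D h1 D' h2 j
    exact hfin d s hs0 hs
  · right
    obtain ⟨c, hc⟩ : ∃ c : Fin (N + N) → L, c = Fin.append a b := ⟨_, rfl⟩
    obtain ⟨e, he⟩ : ∃ e : ℕ,
        Algebra.trdeg ℂ (IntermediateField.adjoin ℂ (Set.range c)) = e := by
      have h1 : Algebra.trdeg ℂ (IntermediateField.adjoin ℂ (Set.range c)) ≤ (N + N : ℕ) :=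
        trdeg_adjoin_le c
      exact Cardinal.lt_aleph0.1 (h1.trans_lt Cardinal.natCast_lt_aleph0)
    have hde : d ≤ e + 1 := by
      obtain ⟨t, -, -, ht⟩ := Pool.Agent.R885.exists_mono_basis he
      obtain ⟨ι, hι⟩ : ∃ ι : L →ₐ[ℂ] IntermediateField.adjoin L (Set.range x),
        ∀ z, ι z = algebraMap L (IntermediateField.adjoin L (Set.range x)) z :=
        ⟨IsScalarTower.toAlgHom ℂ L _, fun _ => rfl⟩
      refine trdeg_lines (k := ℂ) (K := IntermediateField.adjoin L (Set.range x))
        (G := Set.range fun i => ι (c i)) (x := x') (τ := x' j1) ?_ hd'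
        (fun i => ι (t i)) ?_
      · intro j
        rw [hab j]
        have h1 : ∀ i, ι (c i) ∈ IntermediateField.adjoin ℂ
            (insert (x' j1) (Set.range fun i => ι (c i))) := fun i =>
          IntermediateField.subset_adjoin _ _ (Set.mem_insert_of_mem _ ⟨i, rfl⟩)
        have ha := h1 (Fin.castAdd N j)
        have hb := h1 (Fin.natAdd N j)
        have hca : ι (c (Fin.castAdd N j)) =
            algebraMap L (IntermediateField.adjoin L (Set.range x)) (a j) := by
          rw [hι, hc, Fin.append_left]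
        have hcb : ι (c (Fin.natAdd N j)) =
            algebraMap L (IntermediateField.adjoin L (Set.range x)) (b j) := by
          rw [hι, hc, Fin.append_right]
        rw [hca] at ha
        rw [hcb] at hb
        refine add_mem ha (mul_mem ?_ hb)
        exact IntermediateField.subset_adjoin _ _ (Set.mem_insert _ _)
      · rintro _ ⟨i, rfl⟩
        exact isAlgebraic_image ι t (ht _ ⟨i, rfl⟩)
    obtain ⟨s, hs0, hs⟩ := exists_ratios_d (K := L) (d := e) (x := c) hL he T hT0
      fun D h1 D' h2 j => by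
        have h3 : D' (c j) = D (c j) := h2 (c j)
        rw [h3, hc]
        refine Fin.addCases (fun i => ?_) (fun i => ?_) j
        · rw [Fin.append_left]
          exact (hDab D h1 i).1
        · rw [Fin.append_right]
          exact (hDab D h1 i).2
    refine ⟨kodTr_mono (by omega) (hfin e s hs0 hs), hm2, a, b, hLI, fun F => ?_⟩
    rw [← hline F]
    have h4 : MvPolynomial.aeval x F = φ (MvPolynomial.aeval x' F) := by
      rw [MvPolynomial.comp_aeval_apply]
      congr 1
      congr 1
      funext j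
      exact ((hφ _).trans (hx' j)).symm
    rw [h4]
    constructor
    · intro h
      exact (map_eq_zero φ).1 h
    · intro h
      rw [h, map_zero]

end

end Pool.Agent.H614.MM
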