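import Pool.Agent.H614.MM.Fin

/-!
Images of fibred pairs: Kodaira dimension and numerical dimension.
-/

set_option autoImplicit false
set_option linter.unusedSectionVars false
set_option linter.overlappingInstances false

open FF Module Pool.Agent.W602.GT
open Pool.Agent.W619.TW (NumLe)

namespace Pool.Agent.H614.MM

section

variable {K : Type} [Field K] [Algebra ℂ K] {n N : ℕ}

/-- `ω` is a section of `K_V + D - m H` -/
def IsLogSection (m : ℕ) (BK : Place ℂ K → Prop) (x : Fin N → K)
    (ω : (Fin n → Derivation ℂ K K) → K) : Prop :=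
  IsPluri 1 ω ∧ ∀ (f : Fin m → Fin N) (P : Place ℂ K), Divisorial n P →
    LogAt P (fun D => (∏ k, x (f k)) * ω D) ∧
      (¬ BK P → RegAt P (fun D => (∏ k, x (f k)) * ω D))

end

section

variable {K : Type} [Field K] [Algebra ℂ K] {n N m d : ℕ} {L : Type} [Field L] [Algebra ℂ L]
  [Algebra L K] [IsScalarTower ℂ L K] [FiniteDimensional L K]

/-- **Kodaira dimension of images of pairs.** -/
theorem main_log [Algebra.EssFiniteType ℂ K] (hK : Algebra.trdeg ℂ K = n) {x : Fin N → K}
    (hone : ∃ j, x j = 1)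
    (hd : Algebra.trdeg ℂ (IntermediateField.adjoin ℂ (Set.range x)) = d)
    {BK : Place ℂ K → Prop} {BL : Place ℂ L → Prop}
    (hB : ∀ (P : Place ℂ L) (Q : Place ℂ K) (e : ℕ), Over Q P e → BK Q → BL P)
    {ω : (Fin n → Derivation ℂ K K) → K} (hω : IsLogSection m BK x ω)
    (htr : TrNe ω ((IntermediateField.adjoin L (Set.range x)).restrictScalars ℂ))
    (hdeg : Module.finrank L (IntermediateField.adjoin L (Set.range x)) ≤ m) :
    KodGe ℂ L n BL (d - 1) ∧
    (¬ CovLines x ∨ 2 * Module.finrank L (IntermediateField.adjoin L (Set.range x)) ≤ m + 1 →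
      KodGe ℂ L n BL d) := by
  classical
  have hessL : Algebra.EssFiniteType ℂ L := Pool.Agent.TH466.QG.ess_below (K := K)
  have hL : Algebra.trdeg ℂ L = n := Pool.Agent.Y184.NT.trdeg_below (K := K) hK
  obtain ⟨j0, hj0⟩ := hone
  obtain ⟨z, E, hz, hE⟩ := Pool.Agent.Y172.exists_crd (k := ℂ) (K := L) hL
  choose E' hE' using fun i => Pool.Agent.Y172.exists_lift (k := ℂ) (K := L) (L := K) hL (E i)
  have hne := frame_ne hω.1 hz hE hE' htr
  rcases kod_or (BK := BK) (BL := BL) hL hB hj0 hω.1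
    hω.2 hd hz hE hE' hdeg hne with h | ⟨h, hm2, a, b, hLI, hline⟩
  · have h1 := Pool.Agent.R882.LT.kodGe_log h
    exact ⟨kodGe_mono (Nat.sub_le _ _) h1, fun _ => h1⟩
  · refine ⟨Pool.Agent.R882.LT.kodGe_log h, fun hcon => ?_⟩
    rcases hcon with hcon | hcon
    · exact absurd ⟨L, inferInstance, inferInstance, a, b, hessL, hLI, hline⟩ hcon
    · omega

/-- **The numerical dimension of images of pairs.** -/
theorem numLe_log [Algebra.EssFiniteType ℂ K] (hK : Algebra.trdeg ℂ K = n)
    {BL : Place ℂ L → Prop} {BK : Place ℂ K → Prop}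
    (hB : ∀ Q : Place ℂ K, BK Q ↔ ∃ (P : Place ℂ L) (e : ℕ), Over Q P e ∧ BL P)
    (h : NumLe ℂ K n BK d) : NumLe ℂ L n BL d := by
  have hessL : Algebra.EssFiniteType ℂ L := Pool.Agent.TH466.QG.ess_below (K := K)
  have hL : Algebra.trdeg ℂ L = n := Pool.Agent.Y184.NT.trdeg_below (K := K) hK
  have hBK : BK = Pool.Agent.W619.Y.BdUp BL := by
    funext Q
    exact propext (hB Q)
  have h1 := (Pool.Agent.W619.Y.pTRANS ℂ L K n hL (fun y hy => by
    have hgen : ∃ (m : ℕ) (g : Fin m → L),
        IntermediateField.adjoin ℂ (Set.range g) = (⊤ : IntermediateField ℂ L) := by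
      obtain ⟨s, hs⟩ := IntermediateField.fg_top ℂ L
      refine ⟨Fintype.card s, fun i => ((Fintype.equivFin s).symm i : s), ?_⟩
      rw [← hs]
      congr 1
      ext z
      constructor
      · rintro ⟨i, rfl⟩
        exact ((Fintype.equivFin s).symm i).2
      · intro hz
        exact ⟨Fintype.equivFin s ⟨z, hz⟩, by simp⟩
    obtain ⟨m, g, hg⟩ := hgen
    exact Pool.Agent.R885.hfin_of_gen hg hy) BL).2.2 d
  rw [hBK] at h
  exact h1 h

end

end Pool.Agent.H614.MM
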